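import Pool.Agent.Helper65.PK.LPData

/-!
# Project PK: the linear programming bound
-/

namespace Pool.Agent.Helper65.PK

open Finset

theorem feasA : listA.all (feas stepsI stepsJ 9) = true := by decide +kernel

theorem feasB : listB.all (feas stepsI stepsJ 4) = true := by decide +kernel

theorem feasC1 : listC1.all (feas stepsI stepsJ 5) = true := by decide +kernel

theorem feasC2 : listC2.all (feas stepsM stepsJ 5) = true := by decide +kernel

theorem feasC3 : listC3.all (feas stepsM stepsT 5) = true := by decide +kernel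

theorem wfI : wf stepsI = true := by decide +kernel

theorem wfM : wf stepsM = true := by decide +kernel

theorem wfJ : wf stepsJ = true := by decide +kernel

theorem wfT : wf stepsT = true := by decide +kernel

theorem chainI : chain stepsI 16 100 = true := by decide +kernel

theorem chainJ : chain stepsJ 0 16 = true := by decide +kernel

theorem okA : okChain (okAt listA (fun _ => 0) 12 7) [600, 939, 1001, 1225, 1500] = true := by
  decide +kernel

theorem okB5 : okChain (okAt listB (fun _ => 0) 12 5) [600, 920, 1007, 1500] = true := by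
  decide +kernel

theorem okB2 : okChain (okAt listB (fun _ => 0) 10 2) [600, 920, 1007, 1500] = true := by
  decide +kernel

theorem okB1 : okChain (okAt listB (fun _ => 0) 6 1) [600, 920, 1007, 1500] = true := by
  decide +kernel

theorem okC1 : (stepsO.all fun st => (List.range 6).all fun k =>
    okChain (okAt listC1 (fun v => min (slI v k st.h st.y0) (slI v k st.h st.y1)) 12 6)
      [600, 935, 965, 970, 979, 1011, 1351, 1500]) = true := by
  decide +kernel

theorem okC2 : (stepsJ2.all fun st =>
    okChain (okAt listC2 (fun v => min (slJ v st.h st.y0) (slJ v st.h st.y1)) 12 6)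
      [600, 956, 1031, 1500]) = true := by
  decide +kernel

theorem okC3 : okChain (okAt listC3 (fun _ => 0) 12 6) [600, 956, 1041, 1500] = true := by
  decide +kernel

theorem split_I : ∀ s ∈ stepsI, s ∈ stepsO ∨ s ∈ stepsM := by decide +kernel

theorem split_J : ∀ s ∈ stepsJ, s ∈ stepsJ2 ∨ (0 ≤ s.y0 ∧ s.y1 ≤ 5) := by decide +kernel

theorem zA : ∀ v ∈ listA, v.z = 0 ∧ 0 ≤ v.g := by decide +kernel

theorem zB : ∀ v ∈ listB, v.z = 0 ∧ v.g ≤ 0 := by decide +kernel

theorem zC1 : ∀ v ∈ listC1, v.z = 0 := by decide +kernel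

theorem zC2 : ∀ v ∈ listC2, v.z = 0 := by decide +kernel

theorem zC3 : ∀ v ∈ listC3, 0 ≤ v.z := by decide +kernel

/-- **The linear programming bound.** -/
theorem lp_bound {ι : Type*} [Fintype ι] [DecidableEq ι] (a : ι → ℝ) (ha : ∀ i, 0 < a i)
    (hs : ∑ i, a i = 1) (I : Finset ι) (hI : ∀ i, i ∈ I ↔ 0.0256 < a i) (k : ι → ℕ)
    (hk : ∀ i ∈ I, k i + 1 ≤ #I) (hk3 : 3 ≤ #I → ∑ i ∈ I, k i + 12 ≤ 6 * #I)
    (hV : ∀ h : ι → ℝ, (∀ i, 0 < h i ∧ h i ≤ 3 / 2) →
      13.5 - 7.5941 * (∑ i, h i * a i) ^ 3 ≤ ∑ i, cc (h i))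
    (h6 : #I = 6 → 0.002726 ≤ ∑ i ∈ Iᶜ, a i) :
    4.92 ≤ ∑ i ∈ I, SK (k i) * √(a i) + 1.038 * ∑ i ∈ Iᶜ, √(a i) := by
  classical
  have hne : Nonempty ι := by
    by_contra h
    rw [not_nonempty_iff] at h
    simp at hs
  obtain ⟨i0⟩ := hne
  have ha1 : ∀ i, a i ≤ 1 := fun i => by
    rw [← hs]
    exact Finset.single_le_sum (fun j _ => (ha j).le) (Finset.mem_univ i)
  have hsq1 : ∀ i, √(a i) ≤ 1 := fun i => by
    rw [Real.sqrt_le_left (by norm_num)]
    simpa using ha1 i
  have hIlow : ∀ i ∈ I, 0.16 ≤ √(a i) := fun i hi => by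
    apply Real.le_sqrt_of_sq_le
    have := (hI i).1 hi
    norm_num at this ⊢
    exact this.le
  have hJup : ∀ i, i ∉ I → √(a i) ≤ 0.16 := fun i hi => by
    rw [Real.sqrt_le_left (by norm_num)]
    have := not_lt.1 fun h => hi ((hI i).2 h)
    norm_num at this ⊢
    exact this
  -- the steps
  have hstep : ∀ i, ∃ s : Stp, (i ∈ I → s ∈ stepsI) ∧ (i ∉ I → s ∈ stepsJ) ∧
      (s.y0 : ℝ) ≤ 100 * √(a i) ∧ 100 * √(a i) ≤ s.y1 := by
    intro i
    by_cases hi : i ∈ I
    · obtain ⟨s, h1, h2, h3⟩ := exists_step chainI (y := 100 * √(a i))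
        (by push_cast; linarith [hIlow i hi]) (by push_cast; linarith [hsq1 i])
      exact ⟨s, fun _ => h1, fun h => absurd hi h, h2, h3⟩
    · obtain ⟨s, h1, h2, h3⟩ := exists_step chainJ (y := 100 * √(a i))
        (by push_cast; positivity) (by push_cast; linarith [hJup i hi])
      exact ⟨s, fun h => absurd h hi, fun _ => h1, h2, h3⟩
  choose st hst1 hst2 hst3 hst4 using hstep
  have hkr : ∀ i ∈ I, (k i : ℝ) + 1 ≤ #I := fun i hi => by exact_mod_cast hk i hi
  have hW : 3 ≤ #I → (12 : ℝ) ≤ ∑ i ∈ I, ((6 : ℝ) - k i) := by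
    intro h3
    have h := hk3 h3
    have h' : ((∑ i ∈ I, k i : ℕ) : ℝ) + 12 ≤ 6 * #I := by exact_mod_cast h
    rw [Finset.sum_sub_distrib, Finset.sum_const, nsmul_eq_mul]
    push_cast at h'
    linarith
  have hz0 : ∀ v : Vec, v.z = 0 → (v.z : ℝ) * 0.002726 ≤ v.z * ∑ i ∈ Iᶜ, a i := by
    intro v hv
    rw [hv]; simp
  rcases lt_or_ge 6 (#I) with h7 | h7
  · -- at least seven large facets
    refine cls (K := 9) (W := 12) (m := 7) (spec := fun _ => 0) feasA wfI wfJ okA (by simp)
      (by simp) ha hs I k hV st (fun i hi => hst1 i hi) (fun i hi => hst2 i hi)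
      (fun i => ⟨hst3 i, hst4 i⟩) (fun i _ => Or.inr rfl) ?_ ?_
      (fun v hv => hz0 v (zA v hv).1) i0 (fun v _ => Or.inl rfl)
    · have := hW (by omega)
      push_cast; exact this
    · intro v hv
      have h1 : (0 : ℝ) ≤ v.g := by exact_mod_cast (zA v hv).2
      apply mul_le_mul_of_nonneg_left _ h1
      exact_mod_cast h7
  rcases lt_or_eq_of_le h7 with h5 | h6'
  · -- at most five large facets
    rcases le_or_gt 3 (#I) with h3 | h3
    · refine cls (K := 4) (W := 12) (m := 5) (spec := fun _ => 0) feasB wfI wfJ okB5 (by simp)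
        (by simp) ha hs I k hV st (fun i hi => hst1 i hi) (fun i hi => hst2 i hi)
        (fun i => ⟨hst3 i, hst4 i⟩) (fun i hi => Or.inl (by have := hk i hi; omega)) ?_ ?_
        (fun v hv => hz0 v (zB v hv).1) i0 (fun v _ => Or.inl rfl)
      · have := hW h3
        push_cast; exact this
      · intro v hv
        have h1 : (v.g : ℝ) ≤ 0 := by exact_mod_cast (zB v hv).2
        apply mul_le_mul_of_nonpos_left _ h1
        have : #I ≤ 5 := by omega
        exact_mod_cast this
    · rcases Nat.eq_zero_or_pos (#I) with h0 | h0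
      · -- no large facet
        rw [Finset.card_eq_zero] at h0
        subst h0
        rw [Finset.sum_empty, Finset.compl_empty, zero_add]
        have : (∑ i, a i) / 0.16 ≤ ∑ i, √(a i) := by
          rw [Finset.sum_div]
          apply Finset.sum_le_sum
          intro i _
          rw [div_le_iff₀ (by norm_num)]
          have h1 := hJup i (Finset.notMem_empty i)
          have h2 := Real.sq_sqrt (ha i).le
          have h3 := Real.sqrt_nonneg (a i)
          nlinarith
        rw [hs] at this
        norm_num at this ⊢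
        linarith
      rcases Nat.lt_or_ge 1 (#I) with h2 | h1
      · have h2' : #I = 2 := by omega
        refine cls (K := 4) (W := 10) (m := 2) (spec := fun _ => 0) feasB wfI wfJ okB2 (by simp)
          (by simp) ha hs I k hV st (fun i hi => hst1 i hi) (fun i hi => hst2 i hi)
          (fun i => ⟨hst3 i, hst4 i⟩) (fun i hi => Or.inl (by have := hk i hi; omega)) ?_ ?_
          (fun v hv => hz0 v (zB v hv).1) i0 (fun v _ => Or.inl rfl)
        · have h5 : ∑ i ∈ I, (5 : ℝ) ≤ ∑ i ∈ I, ((6 : ℝ) - k i) := by
            apply Finset.sum_le_sum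
            intro i hi
            have := hkr i hi
            rw [h2'] at this
            push_cast at this
            linarith
          rw [Finset.sum_const, h2'] at h5
          push_cast
          norm_num at h5 ⊢
          exact h5
        · intro v hv
          rw [h2']; push_cast; exact le_rfl
      · have h1' : #I = 1 := by omega
        refine cls (K := 4) (W := 6) (m := 1) (spec := fun _ => 0) feasB wfI wfJ okB1 (by simp)
          (by simp) ha hs I k hV st (fun i hi => hst1 i hi) (fun i hi => hst2 i hi)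
          (fun i => ⟨hst3 i, hst4 i⟩) (fun i hi => Or.inl (by have := hk i hi; omega)) ?_ ?_
          (fun v hv => hz0 v (zB v hv).1) i0 (fun v _ => Or.inl rfl)
        · have h5 : ∑ i ∈ I, (6 : ℝ) ≤ ∑ i ∈ I, ((6 : ℝ) - k i) := by
            apply Finset.sum_le_sum
            intro i hi
            have := hkr i hi
            rw [h1'] at this
            push_cast at this
            linarith
          rw [Finset.sum_const, h1'] at h5
          push_cast
          norm_num at h5 ⊢
          exact h5
        · intro v hv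
          rw [h1']; push_cast; exact le_rfl
  · -- exactly six large facets
    have hW6 := hW (by omega)
    have hm6 : ∀ v : Vec, (v.g : ℝ) * (6 : ℤ) ≤ v.g * #I := fun v => by
      rw [h6']; push_cast; exact le_rfl
    by_cases hC1 : ∃ i ∈ I, st i ∈ stepsO
    · obtain ⟨i1, hi1, hi1'⟩ := hC1
      have hk5 : k i1 < 6 := by have := hk i1 hi1; omega
      have hok := List.all_eq_true.1 (List.all_eq_true.1 okC1 _ hi1') (k i1)
        (List.mem_range.2 hk5)
      refine cls (K := 5) (W := 12) (m := 6) feasC1 wfI wfJ hok (by simp)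
        (by simp) ha hs I k hV st (fun i hi => hst1 i hi) (fun i hi => hst2 i hi)
        (fun i => ⟨hst3 i, hst4 i⟩) (fun i hi => Or.inl (by have := hk i hi; omega)) ?_
        (fun v _ => hm6 v) (fun v hv => hz0 v (zC1 v hv)) i1
        (fun v _ => Or.inr (Or.inl ⟨hi1, min_le_left _ _, min_le_right _ _⟩))
      push_cast; exact hW6
    push Not at hC1
    have hstM : ∀ i ∈ I, st i ∈ stepsM := fun i hi =>
      (split_I _ (hst1 i hi)).resolve_left (hC1 i hi)
    by_cases hC2 : ∃ i, i ∉ I ∧ st i ∈ stepsJ2
    · obtain ⟨i1, hi1, hi1'⟩ := hC2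
      have hok := List.all_eq_true.1 okC2 _ hi1'
      refine cls (K := 5) (W := 12) (m := 6) feasC2 wfM wfJ hok (by simp)
        (by simp) ha hs I k hV st hstM (fun i hi => hst2 i hi)
        (fun i => ⟨hst3 i, hst4 i⟩) (fun i hi => Or.inl (by have := hk i hi; omega)) ?_
        (fun v _ => hm6 v) (fun v hv => hz0 v (zC2 v hv)) i1
        (fun v _ => Or.inr (Or.inr ⟨hi1, min_le_left _ _, min_le_right _ _⟩))
      push_cast; exact hW6
    push Not at hC2
    have htiny : ∀ i, i ∉ I → 0 ≤ (st i).y0 ∧ (st i).y1 ≤ 5 := fun i hi =>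
      (split_J _ (hst2 i hi)).resolve_left (hC2 i hi)
    refine cls (K := 5) (W := 12) (m := 6) (spec := fun _ => 0) feasC3 wfM wfT okC3 (by simp)
      (by simp) ha hs I k hV (fun i => if i ∈ I then st i else ⟨0, 5, 150⟩)
      (fun i hi => by simpa [hi] using hstM i hi)
      (fun i hi => by simp [hi, stepsT])
      (fun i => ?_) (fun i hi => Or.inl (by have := hk i hi; omega)) ?_
      (fun v _ => hm6 v) ?_ i0 (fun v _ => Or.inl rfl)
    · by_cases hi : i ∈ I
      · simp only [hi, if_true]
        exact ⟨hst3 i, hst4 i⟩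
      · simp only [hi, if_false]
        have h1 : ((st i).y1 : ℝ) ≤ 5 := by exact_mod_cast (htiny i hi).2
        have h2 := hst4 i
        constructor
        · push_cast; positivity
        · push_cast; linarith
    · push_cast; exact hW6
    · intro v hv
      have h1 : (0 : ℝ) ≤ v.z := by exact_mod_cast zC3 v hv
      exact mul_le_mul_of_nonneg_left (h6 h6') h1

end Pool.Agent.Helper65.PK
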