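import Mathlib

/-!
# Project PK (`MP_86df06_gt`, `d = 3`): definitions
-/

namespace Pool.Agent.Helper65.PK

open MeasureTheory Module Set
open scoped ENNReal RealInnerProductSpace

abbrev E3 := EuclideanSpace ℝ (Fin 3)

abbrev E2 := EuclideanSpace ℝ (Fin 2)

variable {E : Type*} [NormedAddCommGroup E] [InnerProductSpace ℝ E] {ι : Type*}

/-- The polyhedron given by a family of half-spaces. -/
def PP (u : ι → E) (h : ι → ℝ) : Set E := {x | ∀ i, ⟪u i, x⟫ ≤ h i}

/-- The face of the polyhedron in the hyperplane number `i`. -/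
def FF (u : ι → E) (h : ι → ℝ) (i : ι) : Set E := {x | x ∈ PP u h ∧ ⟪u i, x⟫ = h i}

/-- `FF u h i` contains a relatively open ball of its hyperplane. -/
def Fat (u : ι → E) (h : ι → ℝ) (i : ι) : Prop :=
  ∃ x : E, ∃ ε : ℝ, 0 < ε ∧ ⟪u i, x⟫ = h i ∧ ∀ y, ⟪u i, y⟫ = h i → ‖y - x‖ < ε → y ∈ PP u h

/-- An irredundant representation of a three-dimensional polytope. -/
structure Rep {ι : Type} (u : ι → E3) (h : ι → ℝ) : Prop where
  unit : ∀ i, ‖u i‖ = 1
  inj : Function.Injective u
  bdd : Bornology.IsBounded (PP u h)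
  int : (interior (PP u h)).Nonempty
  fat : ∀ i, Fat u h i

/-- `k`-dimensional volume as a real number. -/
noncomputable def ar [MeasurableSpace E] [BorelSpace E] (k : ℕ) (F : Set E) : ℝ := (μHE[k] F).toReal

open Classical in
/-- The number of the facets in `I` which share at least two points with the facet `i`. -/
noncomputable def nb (u : ι → E) (h : ι → ℝ) (I : Finset ι) (i : ι) : ℕ :=
  (I.filter fun j => j ≠ i ∧ (FF u h i ∩ FF u h j).Nontrivial).card

/-- Cyclically adjacent elements of `A` for the cyclic order given by `r`. -/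
def Adj {ι : Type} (r : ι → ℕ) (A : Finset ι) (i j : ι) : Prop :=
  i ∈ A ∧ j ∈ A ∧ r i < r j ∧
    ((∀ k ∈ A, ¬ (r i < r k ∧ r k < r j)) ∨ (∀ k ∈ A, ¬ (r k < r i ∨ r j < r k)))

open Classical in
/-- The cyclically adjacent pairs. -/
noncomputable def NN {ι : Type} (r : ι → ℕ) (A : Finset ι) : Finset (ι × ι) :=
  (A ×ˢ A).filter fun p => Adj r A p.1 p.2

/-- The state after a list of events (latest event first): `(i, true)` adds `i` and `(i, false)`
removes `i`. -/
def state {ι : Type} [DecidableEq ι] : List (ι × Bool) → Finset ι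
  | [] => ∅
  | (i, b) :: L => if b then insert i (state L) else (state L).erase i

/-- A list of events (latest event first) is valid if only new elements are added and only old
elements are removed. -/
def Valid {ι : Type} [DecidableEq ι] : List (ι × Bool) → Prop
  | [] => True
  | (i, b) :: L => (if b then i ∉ state L else i ∈ state L) ∧ Valid L

/-- `λ = 2 √3`. -/
noncomputable def lam : ℝ := 2 * √3

/-- `c₀ = 3π/4 - √3 π/3 - 1/2 > 0`. -/
noncomputable def c0 : ℝ := 3 * Real.pi / 4 - √3 * Real.pi / 3 - 1 / 2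

/-- `c₁ = 2 √3 - 3`. -/
noncomputable def c1 : ℝ := 2 * √3 - 3

/-- The radial primitive: `G s = ∫₀ˢ (λ (1 + r²)^(-3/2) - 1) r dr`. -/
noncomputable def GG (s : ℝ) : ℝ := lam * (1 - 1 / √(1 + s ^ 2)) - s ^ 2 / 2

/-- The cone piece `{s (u + L w) | w ∈ T, g w < s ≤ f w}`. -/
def conePiece (u : E3) (L : ℂ →ₗᵢ[ℝ] E3) (T : Set ℂ) (g f : ℂ → ℝ) : Set E3 :=
  {x | ∃ w ∈ T, ∃ s : ℝ, g w < s ∧ s ≤ f w ∧ x = s • (u + L w)}

end Pool.Agent.Helper65.PK
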