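import Mathlib
import Pool.Agent.Helper65.PK.Defs
import Pool.Agent.Helper75.Poly

/-!
# Project PK: elementary facts
-/

namespace Pool.Agent.Helper65.PK

open MeasureTheory Module Set
open scoped ENNReal RealInnerProductSpace

variable {E : Type*} [NormedAddCommGroup E] [InnerProductSpace ℝ E] {ι : Type*}

theorem mem_PP {u : ι → E} {h : ι → ℝ} {x : E} : x ∈ PP u h ↔ ∀ i, ⟪u i, x⟫ ≤ h i := Iff.rfl

theorem mem_FF {u : ι → E} {h : ι → ℝ} {i : ι} {x : E} :
    x ∈ FF u h i ↔ x ∈ PP u h ∧ ⟪u i, x⟫ = h i := Iff.rfl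

theorem FF_subset (u : ι → E) (h : ι → ℝ) (i : ι) : FF u h i ⊆ PP u h := fun _ hx => hx.1

theorem FF_eq (u : ι → E) (h : ι → ℝ) (i : ι) : FF u h i = PP u h ∩ Helper75.hyp (u i) (h i) := rfl

open Classical in
theorem PP_eq_poly [Fintype ι] (u : ι → E) (h : ι → ℝ) :
    PP u h = Helper75.poly (Finset.univ.image fun i => (u i, h i)) := by
  ext x
  simp [mem_PP, Helper75.mem_poly]

theorem convex_PP (u : ι → E) (h : ι → ℝ) : Convex ℝ (PP u h) := by
  intro y hy z hz a b ha hb hab i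
  rw [inner_add_right, inner_smul_right, inner_smul_right]
  have h1 := mul_le_mul_of_nonneg_left (hy i) ha
  have h2 := mul_le_mul_of_nonneg_left (hz i) hb
  calc _ ≤ a * h i + b * h i := add_le_add h1 h2
    _ = h i := by rw [← add_mul, hab, one_mul]

theorem isClosed_PP (u : ι → E) (h : ι → ℝ) : IsClosed (PP u h) := by
  have : PP u h = ⋂ i, {x | ⟪u i, x⟫ ≤ h i} := by
    ext x; simp [mem_PP]
  rw [this]
  exact isClosed_iInter fun i => isClosed_le (by fun_prop) continuous_const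

theorem isClosed_FF (u : ι → E) (h : ι → ℝ) (i : ι) : IsClosed (FF u h i) :=
  (isClosed_PP u h).inter (Helper75.isClosed_hyp (u i) (h i))

theorem convex_FF (u : ι → E) (h : ι → ℝ) (i : ι) : Convex ℝ (FF u h i) :=
  (convex_PP u h).inter (Helper75.convex_hyp (u i) (h i))

theorem isCompact_PP [ProperSpace E] {u : ι → E} {h : ι → ℝ} (hb : Bornology.IsBounded (PP u h)) :
    IsCompact (PP u h) := Metric.isCompact_of_isClosed_isBounded (isClosed_PP u h) hb

theorem isCompact_FF [ProperSpace E] {u : ι → E} {h : ι → ℝ} (hb : Bornology.IsBounded (PP u h))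
    (i : ι) : IsCompact (FF u h i) :=
  Metric.isCompact_of_isClosed_isBounded (isClosed_FF u h i) (hb.subset (FF_subset u h i))

/-- interior points satisfy all constraints strictly. -/
theorem lt_of_mem_interior {u : ι → E} {h : ι → ℝ} {x : E} (hx : x ∈ interior (PP u h)) {i : ι}
    (hi : ‖u i‖ = 1) : ⟪u i, x⟫ < h i := by
  rw [mem_interior_iff_mem_nhds, Metric.mem_nhds_iff] at hx
  obtain ⟨ε, hε, hball⟩ := hx
  have h1 : x + (ε / 2) • u i ∈ PP u h := by
    apply hball
    rw [Metric.mem_ball, dist_eq_norm, add_sub_cancel_left, norm_smul, hi, mul_one,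
      Real.norm_eq_abs, abs_of_pos (by positivity)]
    linarith
  have h2 := h1 i
  rw [inner_add_right, inner_smul_right, real_inner_self_eq_norm_sq, hi] at h2
  nlinarith

theorem ne_neg_of_mem {u : ι → E} {h : ι → ℝ} (hu : ∀ i, ‖u i‖ = 1)
    (hint : (interior (PP u h)).Nonempty) {i j : ι} {x : E} (hi : x ∈ FF u h i)
    (hj : x ∈ FF u h j) : u j ≠ -u i := by
  intro hneg
  obtain ⟨w, hw⟩ := hint
  have h1 := lt_of_mem_interior hw (hu i)
  have h2 := lt_of_mem_interior hw (hu j)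
  have h3 := hi.2
  have h4 := hj.2
  rw [hneg, inner_neg_left] at h2 h4
  linarith

theorem ne_neg_of_nonempty {u : ι → E} {h : ι → ℝ} (hu : ∀ i, ‖u i‖ = 1)
    (hint : (interior (PP u h)).Nonempty) {i j : ι} (hij : (FF u h i ∩ FF u h j).Nonempty) :
    u j ≠ -u i := by
  obtain ⟨x, hx, hx'⟩ := hij
  exact ne_neg_of_mem hu hint hx hx'

theorem ar_nonneg [MeasurableSpace E] [BorelSpace E] (k : ℕ) (F : Set E) : 0 ≤ ar k F :=
  ENNReal.toReal_nonneg

end Pool.Agent.Helper65.PK
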