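import Mathlib

/-!
# Project PK: the linear programming certificates
-/

namespace Pool.Agent.Helper65.PK

open Finset

/-- `10⁴` times the lower bound of the isoperimetric constant of a facet with `k` large
neighbours. -/
def SKn : ℕ → ℤ
  | 0 => 25066
  | 1 => 23900
  | 2 => 22675
  | 3 => 21379
  | 4 => 20000
  | 5 => 19059
  | 6 => 18612
  | 7 => 18280
  | 8 => 17950
  | _ => 17724

/-- Lower bound of the isoperimetric constant of a facet with `k` large neighbours. -/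
noncomputable def SK (k : ℕ) : ℝ := (SKn k : ℝ) / 10000

/-- The volume of the part of the ball of radius `3 / 2` cut off at distance `h`, divided by
`π / 3`. -/
noncomputable def cc (h : ℝ) : ℝ := (3 / 2 - h) ^ 2 * (3 + h)

/-- A dual vector. -/
structure Vec where
  al : ℤ
  s : ℤ
  t : ℤ
  nu : ℤ
  g : ℤ
  z : ℤ

/-- A step: an interval of `100 √a` with a value of `100 h`. -/
structure Stp where
  y0 : ℤ
  y1 : ℤ
  h : ℤ

/-- Slack of a large facet. -/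
def slI (v : Vec) (k : ℕ) (h y : ℤ) : ℤ :=
  SKn k * y * 10000 - (v.al * y * y * 100 + v.s * h * y * y + v.t * (150 - h) ^ 2 * (300 + h) +
    (v.nu * (6 - k) + v.g) * 1000000)

/-- Slack of a small facet. -/
def slJ (v : Vec) (h y : ℤ) : ℤ :=
  10380 * y * 10000 - (v.al * y * y * 100 + v.s * h * y * y + v.t * (150 - h) ^ 2 * (300 + h) +
    v.z * y * y * 100)

/-- The value of a dual vector. -/
def val (v : Vec) (W m X : ℤ) : ℤ :=
  v.al * 10 ^ 13 + v.s * X * 10 ^ 10 + v.t * (135 * 10 ^ 12 - 75941 * X ^ 3) +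
    (W * v.nu + v.g * m) * 10 ^ 13 + v.z * 2726 * 10 ^ 7

/-- Feasibility. -/
def feas (Is Js : List Stp) (K : ℕ) (v : Vec) : Bool :=
  decide (0 ≤ v.t) && decide (0 ≤ v.nu) && decide (0 ≤ v.z) &&
  Is.all (fun st => (List.range (K + 1)).all fun k =>
    decide (0 ≤ slI v k st.h st.y0) && decide (0 ≤ slI v k st.h st.y1)) &&
  Js.all (fun st => decide (0 ≤ slJ v st.h st.y0) && decide (0 ≤ slJ v st.h st.y1))

def wf (L : List Stp) : Bool :=
  L.all fun st => decide (0 ≤ st.y0) && decide (st.y0 < st.y1) && decide (60 ≤ st.h) &&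
    decide (st.h ≤ 150)

def chain : List Stp → ℤ → ℤ → Bool
  | [], _, _ => false
  | s :: L, lo, hi => decide (s.y0 ≤ lo) && (decide (hi ≤ s.y1) || chain L s.y1 hi)

theorem exists_step {L : List Stp} {lo hi : ℤ} (h : chain L lo hi = true) {y : ℝ}
    (h0 : (lo : ℝ) ≤ y) (h1 : y ≤ hi) : ∃ s ∈ L, (s.y0 : ℝ) ≤ y ∧ y ≤ s.y1 := by
  induction L generalizing lo with
  | nil => simp [chain] at h
  | cons s L ih =>
    simp only [chain, Bool.and_eq_true, decide_eq_true_eq, Bool.or_eq_true] at h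
    obtain ⟨h2, h3⟩ := h
    have h2' : (s.y0 : ℝ) ≤ lo := by exact_mod_cast h2
    by_cases hy : y ≤ s.y1
    · exact ⟨s, List.mem_cons_self, h2'.trans h0, hy⟩
    · push Not at hy
      rcases h3 with h3 | h3
      · have h3' : (hi : ℝ) ≤ s.y1 := by exact_mod_cast h3
        linarith
      · obtain ⟨s', hs', h4⟩ := ih h3 hy.le
        exact ⟨s', List.mem_cons_of_mem _ hs', h4⟩

theorem chord {A B C σ y0 y1 Y : ℝ} (hA : 0 ≤ A) (h0 : 0 ≤ y0) (h01 : y0 < y1) (hY0 : y0 ≤ Y)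
    (hY1 : Y ≤ y1) (e0 : σ ≤ A * y0 - B * y0 ^ 2 - C) (e1 : σ ≤ A * y1 - B * y1 ^ 2 - C) :
    σ ≤ A * Y - B * Y ^ 2 - C := by
  have hd : 0 < y1 ^ 2 - y0 ^ 2 := by nlinarith
  have hl : 0 ≤ y1 ^ 2 - Y ^ 2 := by nlinarith
  have hm : 0 ≤ Y ^ 2 - y0 ^ 2 := by nlinarith
  have hb : 0 ≤ (y1 - y0) * ((Y - y0) * (y1 - Y)) :=
    mul_nonneg (by linarith) (mul_nonneg (by linarith) (by linarith))
  have key : (y1 ^ 2 - y0 ^ 2) * (A * Y - B * Y ^ 2 - C - σ) =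
      (y1 ^ 2 - Y ^ 2) * (A * y0 - B * y0 ^ 2 - C - σ) +
      (Y ^ 2 - y0 ^ 2) * (A * y1 - B * y1 ^ 2 - C - σ) +
      A * ((y1 - y0) * ((Y - y0) * (y1 - Y))) := by ring
  have h1 : 0 ≤ (y1 ^ 2 - y0 ^ 2) * (A * Y - B * Y ^ 2 - C - σ) := by
    rw [key]
    have := mul_nonneg hl (sub_nonneg.2 e0)
    have := mul_nonneg hm (sub_nonneg.2 e1)
    have := mul_nonneg hA hb
    linarith
  have h2 := nonneg_of_mul_nonneg_right h1 hd
  linarith

theorem SKn_nonneg (k : ℕ) : 0 ≤ SKn k := by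
  unfold SKn; split <;> norm_num

theorem face_I {v : Vec} {k : ℕ} {st : Stp} {a : ℝ} {σ : ℤ} (ha : 0 ≤ a) (hy0 : 0 ≤ st.y0)
    (hy01 : st.y0 < st.y1) (h0 : (st.y0 : ℝ) ≤ 100 * √a) (h1 : 100 * √a ≤ st.y1)
    (e0 : σ ≤ slI v k st.h st.y0) (e1 : σ ≤ slI v k st.h st.y1) :
    (v.al * a + v.s * ((st.h : ℝ) / 100 * a) + v.t * cc ((st.h : ℝ) / 100) +
      (v.nu * (6 - k) + v.g)) / 10 ^ 4 + σ / 10 ^ 10 ≤ SK k * √a := by
  have e0' : (σ : ℝ) ≤ slI v k st.h st.y0 := by exact_mod_cast e0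
  have e1' : (σ : ℝ) ≤ slI v k st.h st.y1 := by exact_mod_cast e1
  have hA : (0 : ℝ) ≤ SKn k * 10000 := by
    have := SKn_nonneg k
    positivity
  have hsq : √a ^ 2 = a := Real.sq_sqrt ha
  have := chord (A := SKn k * 10000) (B := v.al * 100 + v.s * st.h)
    (C := v.t * (150 - st.h) ^ 2 * (300 + st.h) + (v.nu * (6 - k) + v.g) * 1000000)
    (σ := σ) (y0 := st.y0) (y1 := st.y1) (Y := 100 * √a) hA (by exact_mod_cast hy0)
    (by exact_mod_cast hy01) h0 h1 (by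
      refine e0'.trans (le_of_eq ?_)
      unfold slI; push_cast; ring) (by
      refine e1'.trans (le_of_eq ?_)
      unfold slI; push_cast; ring)
  unfold cc SK
  rw [mul_pow, hsq] at this
  linarith

theorem face_J {v : Vec} {st : Stp} {a : ℝ} {σ : ℤ} (ha : 0 ≤ a) (hy0 : 0 ≤ st.y0)
    (hy01 : st.y0 < st.y1) (h0 : (st.y0 : ℝ) ≤ 100 * √a) (h1 : 100 * √a ≤ st.y1)
    (e0 : σ ≤ slJ v st.h st.y0) (e1 : σ ≤ slJ v st.h st.y1) :
    (v.al * a + v.s * ((st.h : ℝ) / 100 * a) + v.t * cc ((st.h : ℝ) / 100) +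
      v.z * a) / 10 ^ 4 + σ / 10 ^ 10 ≤ 1.038 * √a := by
  have e0' : (σ : ℝ) ≤ slJ v st.h st.y0 := by exact_mod_cast e0
  have e1' : (σ : ℝ) ≤ slJ v st.h st.y1 := by exact_mod_cast e1
  have hA : (0 : ℝ) ≤ 10380 * 10000 := by norm_num
  have hsq : √a ^ 2 = a := Real.sq_sqrt ha
  have := chord (A := 10380 * 10000) (B := v.al * 100 + v.s * st.h + v.z * 100)
    (C := v.t * (150 - st.h) ^ 2 * (300 + st.h))
    (σ := σ) (y0 := st.y0) (y1 := st.y1) (Y := 100 * √a) hA (by exact_mod_cast hy0)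
    (by exact_mod_cast hy01) h0 h1 (by
      refine e0'.trans (le_of_eq ?_)
      unfold slJ; push_cast; ring) (by
      refine e1'.trans (le_of_eq ?_)
      unfold slJ; push_cast; ring)
  unfold cc
  rw [mul_pow, hsq] at this
  linarith

theorem conc {p q r T xl xh X : ℝ} (hr : 0 ≤ r) (h0 : 0 ≤ xl) (hl : xl ≤ X) (hh : X ≤ xh)
    (e0 : T ≤ p + q * xl - r * xl ^ 3) (e1 : T ≤ p + q * xh - r * xh ^ 3) :
    T ≤ p + q * X - r * X ^ 3 := by
  rcases (hl.trans hh).eq_or_lt with h | h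
  · have : X = xl := le_antisymm (h ▸ hh) hl
    rw [this]; exact e0
  have key : (xh - xl) * (p + q * X - r * X ^ 3 - T) =
      (xh - X) * (p + q * xl - r * xl ^ 3 - T) + (X - xl) * (p + q * xh - r * xh ^ 3 - T) +
      r * ((X - xl) * (xh - X) * (xh - xl) * (X + xl + xh)) := by ring
  have hX0 : 0 ≤ X := h0.trans hl
  have h1 : 0 ≤ (xh - xl) * (p + q * X - r * X ^ 3 - T) := by
    rw [key]
    have a1 := mul_nonneg (sub_nonneg.2 hh) (sub_nonneg.2 e0)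
    have a2 := mul_nonneg (sub_nonneg.2 hl) (sub_nonneg.2 e1)
    have a3 : 0 ≤ (X - xl) * (xh - X) * (xh - xl) * (X + xl + xh) := by
      apply mul_nonneg (mul_nonneg (mul_nonneg _ _) _) <;> linarith
    have a4 := mul_nonneg hr a3
    linarith
  have h2 := nonneg_of_mul_nonneg_right h1 (sub_pos.2 h)
  linarith

/-- The real value. -/
noncomputable def rval (v : Vec) (W m x : ℝ) : ℝ :=
  v.al + v.s * x + v.t * (13.5 - 7.5941 * x ^ 3) + (W * v.nu + v.g * m) + v.z * 0.002726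

theorem le_rval {v : Vec} {W m xl xh T : ℤ} (ht : 0 ≤ v.t) (hx0 : 0 ≤ xl) {x : ℝ}
    (hl : (xl : ℝ) ≤ 1000 * x) (hh : 1000 * x ≤ xh) (e0 : T ≤ val v W m xl)
    (e1 : T ≤ val v W m xh) : (T : ℝ) ≤ 10 ^ 13 * rval v W m x := by
  have e0' : (T : ℝ) ≤ val v W m xl := by exact_mod_cast e0
  have e1' : (T : ℝ) ≤ val v W m xh := by exact_mod_cast e1
  have ht' : (0 : ℝ) ≤ v.t := by exact_mod_cast ht
  have := conc (p := v.al * 10 ^ 13 + v.t * (135 * 10 ^ 12) + (W * v.nu + v.g * m) * 10 ^ 13 +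
      v.z * 2726 * 10 ^ 7) (q := v.s * 10 ^ 10) (r := v.t * 75941) (T := T) (xl := xl) (xh := xh)
      (X := 1000 * x) (by positivity) (by exact_mod_cast hx0) hl hh (by
      refine e0'.trans (le_of_eq ?_)
      unfold val; push_cast; ring) (by
      refine e1'.trans (le_of_eq ?_)
      unfold val; push_cast; ring)
  refine this.trans (le_of_eq ?_)
  unfold rval
  ring

variable {ι : Type*} [Fintype ι] [DecidableEq ι]

/-- The summation. -/
theorem sum_bound {a : ι → ℝ} (hs : ∑ i, a i = 1) (I : Finset ι) (k : ι → ℕ)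
    (h σ : ι → ℝ) {v : Vec} {x W : ℝ} (ht : 0 ≤ v.t) (hnu : 0 ≤ v.nu) (hx : ∑ i, h i * a i = x)
    (hI : ∀ i ∈ I, (v.al * a i + v.s * (h i * a i) + v.t * cc (h i) +
      (v.nu * (6 - k i) + v.g)) / 10 ^ 4 + σ i ≤ SK (k i) * √(a i))
    (hJ : ∀ i, i ∉ I → (v.al * a i + v.s * (h i * a i) + v.t * cc (h i) +
      v.z * a i) / 10 ^ 4 + σ i ≤ 1.038 * √(a i))
    (hc : 13.5 - 7.5941 * x ^ 3 ≤ ∑ i, cc (h i)) (hW : W ≤ ∑ i ∈ I, ((6 : ℝ) - k i))
    (hz : (v.z : ℝ) * 0.002726 ≤ v.z * ∑ i ∈ Iᶜ, a i) :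
    rval v W (#I : ℝ) x / 10 ^ 4 + ∑ i, σ i ≤
      ∑ i ∈ I, SK (k i) * √(a i) + 1.038 * ∑ i ∈ Iᶜ, √(a i) := by
  have h1 := Finset.sum_le_sum hI
  have h2 : ∑ i ∈ Iᶜ, ((v.al * a i + v.s * (h i * a i) + v.t * cc (h i) +
      v.z * a i) / 10 ^ 4 + σ i) ≤ ∑ i ∈ Iᶜ, 1.038 * √(a i) :=
    Finset.sum_le_sum fun i hi => hJ i (Finset.mem_compl.1 hi)
  rw [← Finset.mul_sum] at h2
  have e1 : ∑ i ∈ I, ((v.al * a i + v.s * (h i * a i) + v.t * cc (h i) +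
      (v.nu * (6 - k i) + v.g)) / 10 ^ 4 + σ i) = (v.al * ∑ i ∈ I, a i +
      v.s * ∑ i ∈ I, h i * a i + v.t * ∑ i ∈ I, cc (h i) +
      (v.nu * ∑ i ∈ I, ((6 : ℝ) - k i) + v.g * #I)) / 10 ^ 4 + ∑ i ∈ I, σ i := by
    rw [Finset.sum_add_distrib, ← Finset.sum_div]
    simp only [Finset.sum_add_distrib, Finset.mul_sum, Finset.sum_const, nsmul_eq_mul]
    ring
  have e2 : ∑ i ∈ Iᶜ, ((v.al * a i + v.s * (h i * a i) + v.t * cc (h i) +
      v.z * a i) / 10 ^ 4 + σ i) = (v.al * ∑ i ∈ Iᶜ, a i +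
      v.s * ∑ i ∈ Iᶜ, h i * a i + v.t * ∑ i ∈ Iᶜ, cc (h i) +
      v.z * ∑ i ∈ Iᶜ, a i) / 10 ^ 4 + ∑ i ∈ Iᶜ, σ i := by
    rw [Finset.sum_add_distrib, ← Finset.sum_div]
    simp only [Finset.sum_add_distrib, Finset.mul_sum]
  rw [e1] at h1
  rw [e2] at h2
  have s1 := Finset.sum_add_sum_compl I a
  have s2 := Finset.sum_add_sum_compl I (fun i => h i * a i)
  have s3 := Finset.sum_add_sum_compl I (fun i => cc (h i))
  have s4 := Finset.sum_add_sum_compl I σ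
  rw [hs] at s1
  rw [hx] at s2
  have ht' : (0 : ℝ) ≤ v.t := by exact_mod_cast ht
  have hnu' : (0 : ℝ) ≤ v.nu := by exact_mod_cast hnu
  have b1 := mul_le_mul_of_nonneg_left hc ht'
  have b2 := mul_le_mul_of_nonneg_left hW hnu'
  rw [← s3, mul_add] at b1
  rw [← s4]
  have s1' : (v.al : ℝ) * ∑ i ∈ I, a i + v.al * ∑ i ∈ Iᶜ, a i = v.al := by
    rw [← mul_add, s1, mul_one]
  have s2' : (v.s : ℝ) * ∑ i ∈ I, h i * a i + v.s * ∑ i ∈ Iᶜ, h i * a i = v.s * x := by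
    rw [← mul_add, s2]
  unfold rval
  linarith

end Pool.Agent.Helper65.PK
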