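import Mathlib
import Pool.Agent.Helper65.PK.Defs

/-!
# Project PK: the cube and the pentagonal prism
-/

namespace Pool.Agent.Helper65.PK

/-- Outer normals of the unit cube. -/
noncomputable def cuU : Fin 6 → E3 :=
  ![!₂[1, 0, 0], !₂[0, 1, 0], !₂[0, 0, 1], !₂[-1, 0, 0], !₂[0, -1, 0], !₂[0, 0, -1]]

noncomputable def cuH : Fin 6 → ℝ := ![1, 1, 1, 0, 0, 0]

/-- Outer normals of the prism of height `220` over the pentagon with vertices
`(-88, 0), (88, 0), (148, 175), (0, 286), (-148, 175)` (edges `176, 185, 185, 185, 185`). -/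
noncomputable def prU : Fin 7 → E3 :=
  ![!₂[0, -1, 0], !₂[35 / 37, -12 / 37, 0], !₂[3 / 5, 4 / 5, 0], !₂[-3 / 5, 4 / 5, 0],
    !₂[-35 / 37, -12 / 37, 0], !₂[0, 0, -1], !₂[0, 0, 1]]

noncomputable def prH : Fin 7 → ℝ := ![0, 3080 / 37, 1144 / 5, 1144 / 5, 3080 / 37, 0, 220]

end Pool.Agent.Helper65.PK
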