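import Pool.Agent.Helper65.PK.P.C5
import Pool.Agent.Helper65.PK.P.G6
import Pool.Agent.Helper65.PK.P.A6
import Pool.Agent.Helper65.PK.P.F1
import Pool.Agent.Helper65.PK.P.P1a
import Pool.Agent.Helper65.PK.P.P1b
import Pool.Agent.Helper65.PK.P.P2a
import Pool.Agent.Helper65.PK.P.P2b
import Pool.Agent.Helper65.PK.P.P2c
import Pool.Agent.Helper65.PK.P.P2d
import Pool.Agent.Helper65.PK.P.P2e
import Pool.Agent.Helper65.PK.P.M1
import Pool.Agent.Helper65.PK.P.M2
import Pool.Agent.Helper65.PK.P.M3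
import Pool.Agent.Helper40.EV.Defs
import Pool.Agent.Helper65.PK.LPMain
import Pool.Agent.Helper75.Main
import Pool.Agent.Helper75.VRep
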