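import Pool.Agent.Helper65.PK.LP

/-!
# Project PK: the linear programming certificates, the data and the conclusion
-/

namespace Pool.Agent.Helper65.PK

open Finset

deriving instance DecidableEq for Stp

/-- Checks all consecutive pairs of a list. -/
def okChain (P : ℤ → ℤ → Bool) : List ℤ → Bool
  | x0 :: x1 :: L => decide (0 ≤ x0) && P x0 x1 && okChain P (x1 :: L)
  | _ => true

def okAt (L : List Vec) (spec : Vec → ℤ) (W m xl xh : ℤ) : Bool :=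
  L.any fun v => decide (492 * 10 ^ 15 ≤ val v W m xl + 10 ^ 7 * spec v) &&
    decide (492 * 10 ^ 15 ≤ val v W m xh + 10 ^ 7 * spec v)

theorem pick {P : ℤ → ℤ → Bool} {L : List ℤ} {x0 : ℤ} (h : okChain P (x0 :: L) = true)
    (hL : L ≠ []) {X : ℝ} (h0 : (x0 : ℝ) ≤ X) (h1 : X ≤ ((x0 :: L).getLast (by simp) : ℤ)) :
    ∃ xl xh : ℤ, P xl xh = true ∧ 0 ≤ xl ∧ (xl : ℝ) ≤ X ∧ X ≤ xh := by
  induction L generalizing x0 with
  | nil => exact absurd rfl hL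
  | cons x1 L ih =>
    simp only [okChain, Bool.and_eq_true, decide_eq_true_eq] at h
    obtain ⟨⟨h2, h3⟩, h4⟩ := h
    by_cases hX : X ≤ x1
    · exact ⟨x0, x1, h3, h2, h0, hX⟩
    · push Not at hX
      rcases L with _ | ⟨x2, L⟩
      · simp at h1
        linarith
      · apply ih h4 (by simp) hX.le
        simpa using h1

/-- The steps of the large facets. -/
def stepsI : List Stp :=
  [⟨16, 17, 143⟩, ⟨17, 18, 142⟩, ⟨18, 19, 141⟩, ⟨19, 20, 140⟩, ⟨20, 21, 139⟩, ⟨21, 22, 138⟩,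
   ⟨22, 23, 137⟩, ⟨23, 24, 135⟩, ⟨24, 25, 134⟩, ⟨25, 26, 133⟩, ⟨26, 27, 131⟩, ⟨27, 28, 130⟩,
   ⟨28, 29, 128⟩, ⟨29, 30, 126⟩, ⟨30, 31, 125⟩, ⟨31, 32, 123⟩, ⟨32, 33, 121⟩, ⟨33, 34, 119⟩,
   ⟨34, 35, 116⟩, ⟨35, 36, 114⟩, ⟨36, 37, 112⟩, ⟨37, 38, 109⟩, ⟨38, 39, 107⟩, ⟨39, 40, 104⟩,
   ⟨40, 41, 101⟩, ⟨41, 42, 98⟩, ⟨42, 43, 95⟩, ⟨43, 44, 91⟩, ⟨44, 45, 87⟩, ⟨45, 46, 83⟩,
   ⟨46, 47, 79⟩, ⟨47, 48, 75⟩, ⟨48, 49, 70⟩, ⟨49, 50, 64⟩, ⟨50, 51, 60⟩, ⟨51, 52, 60⟩,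
   ⟨52, 53, 60⟩, ⟨53, 54, 60⟩, ⟨54, 55, 60⟩, ⟨55, 56, 60⟩, ⟨56, 57, 60⟩, ⟨57, 58, 60⟩,
   ⟨58, 59, 60⟩, ⟨59, 60, 60⟩, ⟨60, 70, 60⟩, ⟨70, 80, 60⟩, ⟨80, 100, 60⟩]

/-- The steps of the small facets. -/
def stepsJ : List Stp :=
  [⟨0, 4, 150⟩, ⟨4, 5, 149⟩, ⟨5, 8, 149⟩, ⟨8, 12, 147⟩, ⟨12, 16, 145⟩]

/-- The steps of the large facets of medium size. -/
def stepsM : List Stp :=
  [⟨30, 31, 125⟩, ⟨31, 32, 123⟩, ⟨32, 33, 121⟩, ⟨33, 34, 119⟩, ⟨34, 35, 116⟩, ⟨35, 36, 114⟩,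
   ⟨36, 37, 112⟩, ⟨37, 38, 109⟩, ⟨38, 39, 107⟩, ⟨39, 40, 104⟩, ⟨40, 41, 101⟩, ⟨41, 42, 98⟩,
   ⟨42, 43, 95⟩, ⟨43, 44, 91⟩, ⟨44, 45, 87⟩, ⟨45, 46, 83⟩, ⟨46, 47, 79⟩, ⟨47, 48, 75⟩]

/-- The other steps of the large facets. -/
def stepsO : List Stp :=
  [⟨16, 17, 143⟩, ⟨17, 18, 142⟩, ⟨18, 19, 141⟩, ⟨19, 20, 140⟩, ⟨20, 21, 139⟩, ⟨21, 22, 138⟩,
   ⟨22, 23, 137⟩, ⟨23, 24, 135⟩, ⟨24, 25, 134⟩, ⟨25, 26, 133⟩, ⟨26, 27, 131⟩, ⟨27, 28, 130⟩,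
   ⟨28, 29, 128⟩, ⟨29, 30, 126⟩, ⟨48, 49, 70⟩, ⟨49, 50, 64⟩, ⟨50, 51, 60⟩, ⟨51, 52, 60⟩,
   ⟨52, 53, 60⟩, ⟨53, 54, 60⟩, ⟨54, 55, 60⟩, ⟨55, 56, 60⟩, ⟨56, 57, 60⟩, ⟨57, 58, 60⟩,
   ⟨58, 59, 60⟩, ⟨59, 60, 60⟩, ⟨60, 70, 60⟩, ⟨70, 80, 60⟩, ⟨80, 100, 60⟩]

/-- Small facets which are not tiny. -/
def stepsJ2 : List Stp :=
  [⟨5, 8, 149⟩, ⟨8, 12, 147⟩, ⟨12, 16, 145⟩]

/-- Tiny facets. -/
def stepsT : List Stp :=
  [⟨0, 5, 150⟩]

def listA : List Vec :=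
  [⟨-1791845, 1246557, 91686, 216, 959, 0⟩, ⟨-26156, 47791, 2285, 203, 1663, 0⟩,
   ⟨-9313, 36813, 1304, 203, 1655, 0⟩, ⟨-15175, 49568, 1264, 367, 355, 0⟩]

def listB : List Vec :=
  [⟨-7633746, 5113549, 392115, 621, 0, 0⟩, ⟨-66095, 89016, 4342, 526, -1120, 0⟩,
   ⟨-19397, 57635, 1607, 502, -876, 0⟩]

def listC1 : List Vec :=
  [⟨-55629, 82008, 3657, 395, -690, 0⟩, ⟨-20345, 58297, 1581, 386, -572, 0⟩,
   ⟨-1963253, 1360040, 100451, 205, 1071, 0⟩, ⟨-162624, 154189, 9025, 376, -339, 0⟩,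
   ⟨-78248, 97403, 4344, 443, -306, 0⟩, ⟨-74487, 94718, 4626, 405, -671, 0⟩,
   ⟨-20000, 58063, 1534, 493, -761, 0⟩, ⟨-64017, 87673, 4063, 395, -645, 0⟩]

def listC2 : List Vec :=
  [⟨-10036, 34372, 1529, 393, 1792, 0⟩, ⟨18541, 14694, 0, 403, 1780, 0⟩,
   ⟨-7294886, 4888826, 378720, 380, 11189, 0⟩]

def listC3 : List Vec :=
  [⟨-10044, 34361, 1529, 393, 1794, 166085⟩, ⟨18541, 14694, 0, 403, 1780, 167001⟩,
   ⟨-149934577, 100000000, 7762589, 380, 187414, 142171⟩]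

def nodesA : List ℤ := [600, 939, 1001, 1225, 1500]
def nodesB : List ℤ := [600, 920, 1007, 1500]
def nodesC1 : List ℤ := [600, 935, 965, 970, 979, 1011, 1351, 1500]
def nodesC2 : List ℤ := [600, 956, 1031, 1500]
def nodesC3 : List ℤ := [600, 956, 1041, 1500]

variable {ι : Type*} [Fintype ι] [DecidableEq ι]

theorem feas_I {Is Js : List Stp} {K : ℕ} {v : Vec} (hv : feas Is Js K v = true) {st : Stp}
    (hst : st ∈ Is) {k : ℕ} (hk : k ≤ K ∨ K = 9) :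
    0 ≤ slI v k st.h st.y0 ∧ 0 ≤ slI v k st.h st.y1 := by
  simp only [feas, Bool.and_eq_true, decide_eq_true_eq, List.all_eq_true, List.mem_range] at hv
  obtain ⟨⟨⟨⟨ht, hnu⟩, hz⟩, hI⟩, hJ⟩ := hv
  by_cases hkK : k ≤ K
  · exact hI st hst k (by omega)
  · have hK : K = 9 := by tauto
    subst hK
    have h9 := hI st hst 9 (by omega)
    have hS : SKn k = SKn 9 := by
      have : 9 ≤ k := by omega
      obtain ⟨j, rfl⟩ := Nat.exists_eq_add_of_le this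
      rw [Nat.add_comm]
      rfl
    have hkk : v.nu * (6 - (k : ℤ)) ≤ v.nu * (6 - ((9 : ℕ) : ℤ)) := by
      apply mul_le_mul_of_nonneg_left _ hnu
      push_cast
      omega
    unfold slI at h9 ⊢
    rw [hS]
    constructor
    · linarith [h9.1]
    · linarith [h9.2]

theorem feas_J {Is Js : List Stp} {K : ℕ} {v : Vec} (hv : feas Is Js K v = true) {st : Stp}
    (hst : st ∈ Js) : 0 ≤ slJ v st.h st.y0 ∧ 0 ≤ slJ v st.h st.y1 := by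
  simp only [feas, Bool.and_eq_true, decide_eq_true_eq, List.all_eq_true] at hv
  exact hv.2 st hst

theorem feas_nonneg {Is Js : List Stp} {K : ℕ} {v : Vec} (hv : feas Is Js K v = true) :
    0 ≤ v.t ∧ 0 ≤ v.nu ∧ 0 ≤ v.z := by
  simp only [feas, Bool.and_eq_true, decide_eq_true_eq] at hv
  tauto

theorem wf_mem {L : List Stp} (h : wf L = true) {st : Stp} (hst : st ∈ L) :
    0 ≤ st.y0 ∧ st.y0 < st.y1 ∧ 60 ≤ st.h ∧ st.h ≤ 150 := by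
  simp only [wf, List.all_eq_true, Bool.and_eq_true, decide_eq_true_eq] at h
  have := h st hst
  tauto

/-- The bound given by one class. -/
theorem cls {L : List Vec} {Is Js : List Stp} {K : ℕ} {W m : ℤ} {spec : Vec → ℤ}
    {nodes : List ℤ} (hL : L.all (feas Is Js K) = true) (hIs : wf Is = true) (hJs : wf Js = true)
    (hn : okChain (okAt L spec W m) (600 :: nodes) = true) (hnn : nodes ≠ [])
    (hlast : (600 :: nodes).getLast (by simp) = 1500)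
    {a : ι → ℝ} (ha : ∀ i, 0 < a i) (hs : ∑ i, a i = 1) (I : Finset ι) (k : ι → ℕ)
    (hV : ∀ h : ι → ℝ, (∀ i, 0 < h i ∧ h i ≤ 3 / 2) →
      13.5 - 7.5941 * (∑ i, h i * a i) ^ 3 ≤ ∑ i, cc (h i))
    (st : ι → Stp) (hstI : ∀ i ∈ I, st i ∈ Is) (hstJ : ∀ i, i ∉ I → st i ∈ Js)
    (hst : ∀ i, ((st i).y0 : ℝ) ≤ 100 * √(a i) ∧ 100 * √(a i) ≤ (st i).y1)
    (hk : ∀ i ∈ I, k i ≤ K ∨ K = 9) (hW : (W : ℝ) ≤ ∑ i ∈ I, ((6 : ℝ) - k i))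
    (hm : ∀ v ∈ L, (v.g : ℝ) * m ≤ v.g * #I)
    (hz : ∀ v ∈ L, (v.z : ℝ) * 0.002726 ≤ v.z * ∑ i ∈ Iᶜ, a i) (i0 : ι)
    (hspec : ∀ v ∈ L, spec v = 0 ∨
      (i0 ∈ I ∧ spec v ≤ slI v (k i0) (st i0).h (st i0).y0 ∧
        spec v ≤ slI v (k i0) (st i0).h (st i0).y1) ∨
      (i0 ∉ I ∧ spec v ≤ slJ v (st i0).h (st i0).y0 ∧ spec v ≤ slJ v (st i0).h (st i0).y1)) :
    4.92 ≤ ∑ i ∈ I, SK (k i) * √(a i) + 1.038 * ∑ i ∈ Iᶜ, √(a i) := by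
  have hwf : ∀ i, 0 ≤ (st i).y0 ∧ (st i).y0 < (st i).y1 ∧ 60 ≤ (st i).h ∧ (st i).h ≤ 150 := by
    intro i
    by_cases hi : i ∈ I
    · exact wf_mem hIs (hstI i hi)
    · exact wf_mem hJs (hstJ i hi)
  have hh1 : ∀ i, (0.6 : ℝ) ≤ (st i).h / 100 ∧ ((st i).h : ℝ) / 100 ≤ 3 / 2 := by
    intro i
    obtain ⟨_, _, h1, h2⟩ := hwf i
    have h1' : (60 : ℝ) ≤ (st i).h := by exact_mod_cast h1
    have h2' : ((st i).h : ℝ) ≤ 150 := by exact_mod_cast h2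
    constructor <;> linarith
  set x := ∑ i, ((st i).h : ℝ) / 100 * a i with hx
  have hx1 : 0.6 ≤ x := by
    calc (0.6 : ℝ) = ∑ i, 0.6 * a i := by rw [← Finset.mul_sum, hs, mul_one]
      _ ≤ x := Finset.sum_le_sum fun i _ => mul_le_mul_of_nonneg_right (hh1 i).1 (ha i).le
  have hx2 : x ≤ 3 / 2 := by
    calc x ≤ ∑ i, (3 / 2 : ℝ) * a i :=
          Finset.sum_le_sum fun i _ => mul_le_mul_of_nonneg_right (hh1 i).2 (ha i).le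
      _ = 3 / 2 := by rw [← Finset.mul_sum, hs, mul_one]
  obtain ⟨xl, xh, hP, hxl0, hxl, hxh⟩ := pick (X := 1000 * x) hn hnn (by push_cast; linarith) (by
    rw [hlast]; push_cast; linarith)
  simp only [okAt, List.any_eq_true, Bool.and_eq_true, decide_eq_true_eq] at hP
  obtain ⟨v, hvL, e0, e1⟩ := hP
  have hv : feas Is Js K v = true := (List.all_eq_true.1 hL) v hvL
  obtain ⟨ht, hnu, hz0⟩ := feas_nonneg hv
  have hval := le_rval (v := v) (W := W) (m := m) (T := 492 * 10 ^ 15 - 10 ^ 7 * spec v) ht hxl0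
    hxl hxh (by linarith) (by linarith)
  have hsum := sum_bound hs I k (fun i => ((st i).h : ℝ) / 100)
    (fun i => if i = i0 then (spec v : ℝ) / 10 ^ 10 else 0) (v := v) (x := x) (W := W) ht hnu rfl
    (by
      intro i hi
      obtain ⟨w1, w2, _, _⟩ := hwf i
      split_ifs with h0
      · subst h0
        rcases hspec v hvL with h | ⟨_, h, h'⟩ | ⟨h, _⟩
        · rw [h]
          exact face_I (ha i).le w1 w2 (hst i).1 (hst i).2 (feas_I hv (hstI i hi) (hk i hi)).1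
            (feas_I hv (hstI i hi) (hk i hi)).2
        · exact face_I (ha i).le w1 w2 (hst i).1 (hst i).2 h h'
        · exact absurd hi h
      · have := face_I (σ := 0) (ha i).le w1 w2 (hst i).1 (hst i).2
          (feas_I hv (hstI i hi) (hk i hi)).1 (feas_I hv (hstI i hi) (hk i hi)).2
        simpa using this)
    (by
      intro i hi
      obtain ⟨w1, w2, _, _⟩ := hwf i
      split_ifs with h0
      · subst h0
        rcases hspec v hvL with h | ⟨h, _⟩ | ⟨_, h, h'⟩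
        · rw [h]
          exact face_J (ha i).le w1 w2 (hst i).1 (hst i).2 (feas_J hv (hstJ i hi)).1
            (feas_J hv (hstJ i hi)).2
        · exact absurd h hi
        · exact face_J (ha i).le w1 w2 (hst i).1 (hst i).2 h h'
      · have := face_J (σ := 0) (ha i).le w1 w2 (hst i).1 (hst i).2
          (feas_J hv (hstJ i hi)).1 (feas_J hv (hstJ i hi)).2
        simpa using this)
    (hV _ fun i => ⟨by linarith [(hh1 i).1], (hh1 i).2⟩) hW (hz v hvL)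
  rw [Finset.sum_ite_eq' Finset.univ i0, if_pos (Finset.mem_univ _)] at hsum
  refine le_trans ?_ hsum
  have hr : rval v W m x ≤ rval v W (#I : ℝ) x := by
    unfold rval
    linarith [hm v hvL]
  push_cast at hval
  linarith

end Pool.Agent.Helper65.PK
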