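import Mathlib
import Pool.Agent.Helper65.PK.P.A2
import Pool.Agent.Helper65.PK.P.A3
import Pool.Agent.Helper65.PK.P.C5
import Pool.Agent.Helper65.PK.P.F1
import Pool.Agent.Helper65.PK.P.G6
import Pool.Agent.Helper65.PK.LPMain

/-!
# Project PK: the main inequality
-/

namespace Pool.Agent.Helper65.PK

open MeasureTheory Module Set
open scoped ENNReal RealInnerProductSpace

theorem exists_diam {P : Set E3} (hb : Bornology.IsBounded P) :
    ∃ D : ℝ, ∀ x ∈ P, ∀ y ∈ P, ‖x - y‖ ≤ D := by
  obtain ⟨C, hC⟩ := Metric.isBounded_iff.1 hb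
  exact ⟨C, fun x hx y hy => by rw [← dist_eq_norm]; exact hC hx hy⟩

section

variable {ι : Type} [Fintype ι] [DecidableEq ι] {u : ι → E3} {h : ι → ℝ}

omit [DecidableEq ι] in
theorem Rep.zeta_lt_top (R : Rep u h) (k : ℕ) : Helper75.zeta k (PP u h) < ⊤ := by
  obtain ⟨D, hD⟩ := exists_diam R.bdd
  rw [PP_eq_poly] at hD ⊢
  exact Helper75.zeta_lt_top _ _ hD

theorem Rep.facet_lt_top (R : Rep u h) (i : ι) : μHE[2] (FF u h i) < ⊤ := by
  have h1 := R.zeta_lt_top 2
  rw [zeta_two R] at h1
  exact (Finset.single_le_sum (f := fun i => μHE[2] (FF u h i)) (fun _ _ => zero_le)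
    (Finset.mem_univ i)).trans_lt h1

theorem Rep.surface (R : Rep u h) : (Helper75.zeta 2 (PP u h)).toReal = ∑ i, ar 2 (FF u h i) := by
  rw [zeta_two R, ENNReal.toReal_sum fun i _ => (R.facet_lt_top i).ne]
  rfl

theorem Rep.facet_pos (R : Rep u h) (i : ι) : 0 < ar 2 (FF u h i) := by
  unfold ar
  rw [ENNReal.toReal_pos_iff]
  refine ⟨?_, R.facet_lt_top i⟩
  have hu0 : u i ≠ 0 := by
    intro h0
    have := R.unit i
    rw [h0, norm_zero] at this
    exact zero_ne_one this
  obtain ⟨x, ε, hε, hx, hball⟩ := R.fat i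
  have h1 := Helper75.slice_eq_section hu0 (PP u h) (h i)
  have hfr : finrank ℝ E3 - 1 = 2 := by simp
  rw [hfr, R.unit i, one_pow, div_one] at h1
  rw [FF_eq, h1]
  have hw0 : x - h i • u i ∈ (ℝ ∙ u i)ᗮ := by
    rw [Submodule.mem_orthogonal_singleton_iff_inner_right, inner_sub_right, inner_smul_right,
      real_inner_self_eq_norm_sq, R.unit i, hx]
    ring
  refine (Metric.measure_ball_pos volume (⟨_, hw0⟩ : (ℝ ∙ u i)ᗮ) hε).trans_le (measure_mono ?_)
  intro w hw
  rw [Metric.mem_ball, dist_eq_norm] at hw
  apply hball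
  · have := (Submodule.mem_orthogonal_singleton_iff_inner_right).1 w.2
    rw [inner_add_right, inner_smul_right, real_inner_self_eq_norm_sq, R.unit i, this]
    ring
  · have h2 : h i • u i + (w : E3) - x = ((w - ⟨x - h i • u i, hw0⟩ : (ℝ ∙ u i)ᗮ) : E3) := by
      rw [Submodule.coe_sub]
      module
    rw [h2]
    exact hw

theorem nb_add_one_le {u : ι → E3} {h : ι → ℝ} {I : Finset ι} {i : ι} (hi : i ∈ I) :
    nb u h I i + 1 ≤ I.card := by
  classical
  have h1 : (I.filter fun j => j ≠ i ∧ (FF u h i ∩ FF u h j).Nontrivial) ⊆ I.erase i := by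
    intro j hj
    rw [Finset.mem_filter] at hj
    exact Finset.mem_erase.2 ⟨hj.2.1, hj.1⟩
  have h2 := Finset.card_le_card h1
  rw [Finset.card_erase_of_mem hi] at h2
  have h3 := Finset.card_pos.2 ⟨i, hi⟩
  have h4 : nb u h I i ≤ I.card - 1 := by
    unfold nb
    convert h2
  omega

/-- **Theorem N.** -/
theorem edge_ge (R : Rep u h)
    (hVS : 1.006 * (Helper75.zeta 2 (PP u h)).toReal ^ 3 ≤ 216 * (volume (PP u h)).toReal ^ 2) :
    4.92 * √(Helper75.zeta 2 (PP u h)).toReal ≤ (Helper75.zeta 1 (PP u h)).toReal := by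
  rw [R.surface] at hVS ⊢
  set A : ι → ℝ := fun i => ar 2 (FF u h i) with hA
  set S : ℝ := ∑ i, A i with hS
  set V : ℝ := (volume (PP u h)).toReal with hV
  have hne : Nonempty ι := by
    by_contra hcon
    rw [not_nonempty_iff] at hcon
    have huniv : PP u h = univ := by
      ext x; simp [mem_PP]
    have hb := R.bdd
    rw [huniv] at hb
    exact NormedSpace.unbounded_univ ℝ E3 hb
  have hApos : ∀ i, 0 < A i := fun i => R.facet_pos i
  have hSpos : 0 < S := Finset.sum_pos (fun i _ => hApos i) Finset.univ_nonempty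
  have hPne : (PP u h).Nonempty := R.int.mono interior_subset
  set a : ι → ℝ := fun i => A i / S with ha
  have hapos : ∀ i, 0 < a i := fun i => div_pos (hApos i) hSpos
  have hasum : ∑ i, a i = 1 := by
    rw [ha, ← Finset.sum_div]
    exact div_self hSpos.ne'
  set I : Finset ι := Finset.univ.filter fun i => 0.0256 < a i with hI
  have hmemI : ∀ i, i ∈ I ↔ 0.0256 < a i := fun i => by simp [hI]
  have hV0 : 0 ≤ V := ENNReal.toReal_nonneg
  have hmain := lp_bound a hapos hasum I hmemI (nb u h I) (fun i hi => nb_add_one_le hi)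
    (fun h3 => planar R.unit R.bdd R.int I R.inj.injOn (fun i _ => R.fat i) h3)
    (by
      intro k hk
      set K : Set E3 := {x : E3 | ‖x‖ ≤ 3 / 2 ∧ x ∈ PP u k} with hK
      have hKc : IsCompact K := by
        apply Metric.isCompact_of_isClosed_isBounded
        · exact (isClosed_le continuous_norm continuous_const).inter (isClosed_PP u k)
        · apply (Metric.isBounded_closedBall (x := (0 : E3)) (r := 3 / 2)).subset
          intro x hx
          rw [mem_closedBall_zero_iff]
          exact hx.1
      have hK0 : K.Nonempty := ⟨0, by rw [norm_zero]; norm_num, fun i => by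
        rw [inner_zero_right]; exact (hk i).1.le⟩
      have h1 := minkowski (m := 2) R.unit R.bdd hPne (fun i => (hk i).1.le) hKc hK0
        (fun x hx => hx.2)
      have h2 := ball_trunc R.unit hk
      rw [← hK] at h2
      have hx : ∑ i, k i * ar 2 (FF u h i) = S * ∑ i, k i * a i := by
        rw [Finset.mul_sum]
        apply Finset.sum_congr rfl
        intro i _
        rw [ha]
        simp only
        field_simp
        rfl
      rw [hx] at h1
      set x : ℝ := ∑ i, k i * a i with hxdef
      have hx0 : 0 ≤ x := Finset.sum_nonneg fun i _ => mul_nonneg (hk i).1.le (hapos i).le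
      set C : ℝ := 13.5 - ∑ i, cc (k i) with hC
      rcases le_or_gt C 0 with hC0 | hC0
      · have : 0 ≤ x ^ 3 := by positivity
        linarith
      have hpi := Real.pi_gt_d4
      have h3 : (0 : ℝ) ≤ Real.pi / 3 * C := by positivity
      have h4 : 27 * V ^ 2 * (Real.pi / 3 * C) ≤ S ^ 3 * x ^ 3 := by
        calc 27 * V ^ 2 * (Real.pi / 3 * C) ≤ 27 * V ^ 2 * (volume K).toReal := by gcongr
          _ = (((2 : ℕ) : ℝ) + 1) ^ (2 + 1) * V ^ 2 * (volume K).toReal := by norm_num
          _ ≤ _ := h1
          _ = S ^ 3 * x ^ 3 := by ring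
      have h5 : 27 * (1.006 * S ^ 3 / 216) * (Real.pi / 3 * C) ≤ S ^ 3 * x ^ 3 := by
        refine le_trans ?_ h4
        have : 1.006 * S ^ 3 / 216 ≤ V ^ 2 := by linarith
        gcongr
      have hS3 : 0 < S ^ 3 := by positivity
      have h6 : 27 * (1.006 / 216) * (Real.pi / 3 * C) ≤ x ^ 3 := by
        have : S ^ 3 * (27 * (1.006 / 216) * (Real.pi / 3 * C)) ≤ S ^ 3 * x ^ 3 := by
          refine le_trans (le_of_eq ?_) h5
          ring
        exact le_of_mul_le_mul_left this hS3
      have h7 : 27 * (1.006 / 216) * (3.1415 / 3 * C) ≤ x ^ 3 := by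
        refine le_trans ?_ h6
        gcongr
      nlinarith)
    (by
      intro h6
      set K : Set E3 := {x : E3 | ‖x‖ ≤ √3 ∧ ∀ i ∈ I, ⟪u i, x⟫ ≤ 1} with hK
      have hs3 : 1 ≤ √3 := by
        rw [Real.one_le_sqrt]; norm_num
      have hKc : IsCompact K := by
        apply Metric.isCompact_of_isClosed_isBounded
        · have : K = {x : E3 | ‖x‖ ≤ √3} ∩ ⋂ i ∈ I, {x | ⟪u i, x⟫ ≤ 1} := by
            ext x; simp [hK]
          rw [this]
          exact (isClosed_le continuous_norm continuous_const).inter
            (isClosed_biInter fun i _ => isClosed_le (by fun_prop) continuous_const)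
        · apply (Metric.isBounded_closedBall (x := (0 : E3)) (r := √3)).subset
          intro x hx
          rw [mem_closedBall_zero_iff]
          exact hx.1
      have hK0 : K.Nonempty := ⟨0, by simp, fun i _ => by
        rw [inner_zero_right]; norm_num⟩
      let k : ι → ℝ := fun i => if i ∈ I then 1 else √3
      have h1 := minkowski (m := 2) (k := k) R.unit R.bdd hPne (fun i => by
          simp only [k]; split_ifs <;> positivity) hKc hK0 (by
          intro x hx i
          simp only [k]
          split_ifs with hi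
          · exact hx.2 i hi
          · have := real_inner_le_norm (u i) x
            rw [R.unit i, one_mul] at this
            exact this.trans hx.1)
      obtain e := (I.equivFinOfCardEq h6)
      have h8 := six_caps (u := fun j => u (e.symm j)) (fun j => R.unit _) (by
        intro j j' hjj
        have := R.inj hjj
        exact e.symm.injective (Subtype.ext this))
      have hKeq : {x : E3 | ‖x‖ ≤ √3 ∧ ∀ j : Fin 6, ⟪u (e.symm j), x⟫ ≤ 1} = K := by
        ext x
        simp only [hK, mem_ofPred_eq]
        refine and_congr_right fun _ => ⟨fun hx i hi => ?_, fun hx j => hx _ (e.symm j).2⟩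
        have := hx (e ⟨i, hi⟩)
        rwa [Equiv.symm_apply_apply] at this
      rw [hKeq] at h8
      have hsum : ∑ i, k i * ar 2 (FF u h i) = S * (1 + (√3 - 1) * ∑ i ∈ Iᶜ, a i) := by
        have e1 : ∑ i, k i * ar 2 (FF u h i) = S * ∑ i, k i * a i := by
          rw [Finset.mul_sum]
          apply Finset.sum_congr rfl
          intro i _
          rw [ha]
          simp only
          field_simp
          rfl
        have e2 : ∑ i, k i * a i = ∑ i ∈ I, a i + √3 * ∑ i ∈ Iᶜ, a i := by
          rw [← Finset.sum_add_sum_compl I, Finset.mul_sum]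
          congr 1
          · apply Finset.sum_congr rfl
            intro i hi
            simp only [k, if_pos hi, one_mul]
          · apply Finset.sum_congr rfl
            intro i hi
            simp only [k, if_neg (Finset.mem_compl.1 hi)]
        have e3 := Finset.sum_add_sum_compl I a
        rw [hasum] at e3
        rw [e1, e2]
        have : ∑ i ∈ I, a i = 1 - ∑ i ∈ Iᶜ, a i := by linarith
        rw [this]
        ring
      rw [hsum] at h1
      set ε : ℝ := ∑ i ∈ Iᶜ, a i with hε
      have hε0 : 0 ≤ ε := Finset.sum_nonneg fun i _ => (hapos i).le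
      by_contra hcon
      push Not at hcon
      have hs3' : √3 ≤ 1.7321 := by
        rw [Real.sqrt_le_left (by norm_num)]; norm_num
      have h9 : 1 + (√3 - 1) * ε ≤ 1.0019958 := by nlinarith
      have h10 : 27 * V ^ 2 * 8 ≤ S ^ 3 * 1.0019958 ^ 3 := by
        calc 27 * V ^ 2 * 8 ≤ 27 * V ^ 2 * (volume K).toReal := by gcongr
          _ = (((2 : ℕ) : ℝ) + 1) ^ (2 + 1) * V ^ 2 * (volume K).toReal := by norm_num
          _ ≤ _ := h1
          _ = S ^ 3 * (1 + (√3 - 1) * ε) ^ 3 := by ring
          _ ≤ S ^ 3 * 1.0019958 ^ 3 := by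
            have : 0 ≤ 1 + (√3 - 1) * ε := by
              have := mul_nonneg (sub_nonneg.2 hs3) hε0
              linarith
            gcongr
      have hS3 : 0 < S ^ 3 := by positivity
      nlinarith)
  have hedge := edge_bound R I
  refine le_trans ?_ hedge
  have hsq : ∀ i, √(ar 2 (FF u h i)) = √S * √(a i) := by
    intro i
    rw [← Real.sqrt_mul hSpos.le]
    congr 1
    rw [ha]
    simp only
    field_simp
    rfl
  simp_rw [hsq]
  calc 4.92 * √S ≤ (∑ i ∈ I, SK (nb u h I i) * √(a i) + 1.038 * ∑ i ∈ Iᶜ, √(a i)) * √S := by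
        gcongr
    _ = _ := by
        rw [add_mul, Finset.sum_mul, mul_assoc, Finset.sum_mul]
        congr 1
        · apply Finset.sum_congr rfl
          intro i _
          ring
        · congr 1
          apply Finset.sum_congr rfl
          intro i _
          ring

end

/-- Theorem N for polytopes given as bounded polyhedra. -/
theorem edge_ge_poly {I : Finset (E3 × ℝ)} (hb : Bornology.IsBounded (Helper75.poly I))
    (hint : (interior (Helper75.poly I)).Nonempty)
    (hVS : 1.006 * (Helper75.zeta 2 (Helper75.poly I)).toReal ^ 3 ≤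
      216 * (volume (Helper75.poly I)).toReal ^ 2) :
    4.92 * √(Helper75.zeta 2 (Helper75.poly I)).toReal ≤
      (Helper75.zeta 1 (Helper75.poly I)).toReal := by
  obtain ⟨n, u, h, R, hP⟩ := exists_rep hb hint
  rw [← hP] at hVS ⊢
  exact edge_ge R hVS

end Pool.Agent.Helper65.PK
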