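import Mathlib
import Pool.Agent.Helper65.PK.Main
import Pool.Agent.Helper65.PK.P.A6
import Pool.Agent.Helper65.PK.P.P1a
import Pool.Agent.Helper65.PK.P.P1b
import Pool.Agent.Helper65.PK.P.P2a
import Pool.Agent.Helper65.PK.P.P2b
import Pool.Agent.Helper65.PK.P.P2d
import Pool.Agent.Helper65.PK.P.P2e
import Pool.Agent.Helper75.Main

/-!
# Project PK: no polytope has the combination of the vectors of the cube and the prism
-/

namespace Pool.Agent.Helper65.PK

open MeasureTheory Module Set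
open scoped ENNReal RealInnerProductSpace

theorem zeta_three {ι : Type} [Fintype ι] {u : ι → E3} {h : ι → ℝ} (R : Rep u h) :
    Helper75.zeta 3 (PP u h) = volume (PP u h) := by
  have h1 := R.int
  rw [PP_eq_poly] at h1 ⊢
  have h2 := Helper75.zeta_top _ h1
  rw [finrank_euclideanSpace, Fintype.card_fin] at h2
  exact h2

theorem cube_zeta_two : Helper75.zeta 2 (PP cuU cuH) = 6 := by
  rw [zeta_two rep_cube]
  simp [area_cube]

theorem cube_zeta_three : Helper75.zeta 3 (PP cuU cuH) = 1 := by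
  rw [zeta_three rep_cube, volume_cube]

theorem cube_zeta_one : Helper75.zeta 1 (PP cuU cuH) ≤ 12 := by
  have h1 := (zeta_one_le rep_cube).trans edges_cube
  have h2 : (24 : ℝ≥0∞) = 2 * 12 := by norm_num
  rw [h2] at h1
  exact (ENNReal.mul_le_mul_iff_right (by norm_num) (by norm_num)).1 h1

theorem prism_zeta_two : Helper75.zeta 2 (PP prU prH) = 316976 := by
  rw [zeta_two rep_prism]
  simp only [Fin.sum_univ_succ, Fin.sum_univ_zero]
  have e0 := area_lateral_zero
  have e1 := area_lateral 1 (by simp)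
  have e2 := area_lateral 2 (by simp)
  have e3 := area_lateral 3 (by simp)
  have e4 := area_lateral 4 (by simp)
  have e5 := area_base 5 (by simp)
  have e6 := area_base 6 (by simp)
  have f1 : (Fin.succ (0 : Fin 6)) = (1 : Fin 7) := rfl
  have f2 : (Fin.succ (Fin.succ (0 : Fin 5))) = (2 : Fin 7) := rfl
  have f3 : (Fin.succ (Fin.succ (Fin.succ (0 : Fin 4)))) = (3 : Fin 7) := rfl
  have f4 : (Fin.succ (Fin.succ (Fin.succ (Fin.succ (0 : Fin 3))))) = (4 : Fin 7) := rfl
  have f5 : (Fin.succ (Fin.succ (Fin.succ (Fin.succ (Fin.succ (0 : Fin 2)))))) = (5 : Fin 7) := rfl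
  have f6 : (Fin.succ (Fin.succ (Fin.succ (Fin.succ (Fin.succ (Fin.succ (0 : Fin 1))))))) =
    (6 : Fin 7) := rfl
  rw [f1, f2, f3, f4, f5, f6, e0, e1, e2, e3, e4, e5, e6]
  norm_num

theorem prism_zeta_three : Helper75.zeta 3 (PP prU prH) = 12700160 := by
  rw [zeta_three rep_prism, volume_prism]

theorem prism_zeta_one : Helper75.zeta 1 (PP prU prH) ≤ 2932 := by
  have h1 := (zeta_one_le rep_prism).trans edges_prism
  have h2 : (5864 : ℝ≥0∞) = 2 * 2932 := by norm_num
  rw [h2] at h1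
  exact (ENNReal.mul_le_mul_iff_right (by norm_num) (by norm_num)).1 h1

/-- the numerical contradiction. -/
theorem numeric {c1 c2 c3 p1 p2 p3 x1 x2 x3 : ℝ} (hc1 : c1 ≤ 12) (hc2 : c2 ^ 2 = 6)
    (hc20 : 0 ≤ c2) (hc3 : c3 ^ 3 = 1) (hc30 : 0 ≤ c3) (hp1 : p1 ≤ 2932)
    (hp2 : p2 ^ 2 = 316976) (hp20 : 0 ≤ p2) (hp3 : p3 ^ 3 = 12700160) (hp30 : 0 ≤ p3)
    (hx1 : x1 = 3199 / 3200 * c1 + 1 / 3200 * p1) (hx2 : x2 = 3199 / 3200 * c2 + 1 / 3200 * p2)
    (hx3 : x3 = 3199 / 3200 * c3 + 1 / 3200 * p3)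
    (hN : 1.006 * x2 ^ 6 ≤ 216 * x3 ^ 6 → 4.92 * x2 ≤ x1) : False := by
  have a1 : 2.44948 ≤ c2 := by nlinarith
  have a2 : c2 ≤ 2.44949 := by nlinarith
  have a3 : 1 ≤ c3 := by
    by_contra h
    push Not at h
    have := pow_lt_one₀ hc30 h (n := 3) (by norm_num)
    linarith
  have a4 : 563.006 ≤ p2 := by nlinarith
  have a5 : p2 ≤ 563.0063 := by nlinarith
  have a6 : 233.311 ≤ p3 := by
    by_contra h
    push Not at h
    have := pow_lt_pow_left₀ h hp30 (n := 3) (by norm_num)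
    norm_num at this
    linarith
  have b1 : x1 ≤ 12.9125 := by rw [hx1]; linarith
  have b2 : 2.6246539 ≤ x2 := by rw [hx2]; linarith
  have b3 : x2 ≤ 2.6246641 := by rw [hx2]; linarith
  have b4 : 1.0725971 ≤ x3 := by rw [hx3]; linarith
  have b5 : x2 ^ 6 ≤ 2.6246641 ^ 6 := by gcongr
  have b6 : (1.0725971 : ℝ) ^ 6 ≤ x3 ^ 6 := by gcongr
  have := hN (by
    norm_num at b5 b6
    linarith)
  linarith

/-- No three-dimensional polytope has the `ζ`-vector `3199/3200 ζ(cube) + 1/3200 ζ(prism)`. -/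
theorem no_combination_three {I : Finset (E3 × ℝ)} (hbd : Bornology.IsBounded (Helper75.poly I))
    (hint : (interior (Helper75.poly I)).Nonempty) :
    ¬ (∀ k : ℕ, k < 3 → Helper75.X (k + 1) (Helper75.poly I) =
      3199 / 3200 * Helper75.X (k + 1) (PP cuU cuH) +
      1 / 3200 * Helper75.X (k + 1) (PP prU prH)) := by
  intro hX
  have hX1 := hX 0 (by norm_num)
  have hX2 := hX 1 (by norm_num)
  have hX3 := hX 2 (by norm_num)
  simp only [zero_add, Nat.reduceAdd] at hX1 hX2 hX3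
  have e1 : ∀ P : Set E3, Helper75.X 1 P = (Helper75.zeta 1 P).toReal := fun P => by
    have := Helper75.X_pow (d := 3) (k := 1) one_ne_zero P
    rwa [pow_one] at this
  have hV : (Helper75.zeta 3 (Helper75.poly I)) = volume (Helper75.poly I) := by
    have h2 := Helper75.zeta_top I hint
    rw [finrank_euclideanSpace, Fintype.card_fin] at h2
    exact h2
  refine numeric (c1 := Helper75.X 1 (PP cuU cuH)) (c2 := Helper75.X 2 (PP cuU cuH))
    (c3 := Helper75.X 3 (PP cuU cuH)) (p1 := Helper75.X 1 (PP prU prH))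
    (p2 := Helper75.X 2 (PP prU prH)) (p3 := Helper75.X 3 (PP prU prH)) ?_ ?_
    (Helper75.X_nonneg _ _) ?_ (Helper75.X_nonneg _ _) ?_ ?_ (Helper75.X_nonneg _ _) ?_
    (Helper75.X_nonneg _ _) hX1 hX2 hX3 ?_
  · rw [e1]
    have := ENNReal.toReal_mono (by norm_num) cube_zeta_one
    simpa using this
  · rw [Helper75.X_pow two_ne_zero, cube_zeta_two]; simp
  · rw [Helper75.X_pow three_ne_zero, cube_zeta_three]; simp
  · rw [e1]
    have := ENNReal.toReal_mono (by norm_num) prism_zeta_one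
    simpa using this
  · rw [Helper75.X_pow two_ne_zero, prism_zeta_two]; simp
  · rw [Helper75.X_pow three_ne_zero, prism_zeta_three]; simp
  · intro hN
    have h1 : Helper75.X 2 (Helper75.poly I) ^ 2 = (Helper75.zeta 2 (Helper75.poly I)).toReal :=
      Helper75.X_pow two_ne_zero _
    have h2 : Helper75.X 3 (Helper75.poly I) ^ 3 = (volume (Helper75.poly I)).toReal := by
      rw [Helper75.X_pow three_ne_zero, hV]
    have h3 := edge_ge_poly hbd hint (by
      rw [← h1, ← h2, ← pow_mul, ← pow_mul]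
      exact hN)
    rwa [← h1, Real.sqrt_sq (Helper75.X_nonneg _ _), ← e1] at h3

end Pool.Agent.Helper65.PK
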